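import Mathlib
import Pool.Agent.K4W.StmtsA

/-!
# Squad K4W, row AFF: `t` far from rational numbers with small denominators
-/

set_option autoImplicit false

namespace Pool.Agent.K4W.H41

open Pool.Agent.Helper69_Weyl (ee W)

theorem norm_W_le (k N : ℕ) (t ξ : ℝ) : ‖W k N t ξ‖ ≤ (N : ℝ) := by
  unfold W
  refine (norm_sum_le _ _).trans ?_
  rw [Finset.sum_congr rfl (fun n _ => Pool.Agent.Helper69_Weyl.norm_ee _)]
  simp

theorem succ_pow_le (n Z : ℕ) (hZ : 2 * n ≤ Z) :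
    ((Z : ℝ) + 1) ^ n ≤ 2 * (Z : ℝ) ^ n := by
  have hz1 : (0 : ℝ) < (Z : ℝ) + 1 := by positivity
  have h1 : 1 + (n : ℝ) * (-(1 / ((Z : ℝ) + 1))) ≤ (1 + (-(1 / ((Z : ℝ) + 1)))) ^ n := by
    apply one_add_mul_le_pow
    have : 1 / ((Z : ℝ) + 1) ≤ 1 := by
      rw [div_le_one hz1]
      linarith [Nat.cast_nonneg (α := ℝ) Z]
    linarith
  have h2 : 1 + (-(1 / ((Z : ℝ) + 1))) = (Z : ℝ) / ((Z : ℝ) + 1) := by
    field_simp
    ring
  have h3 : (n : ℝ) * (1 / ((Z : ℝ) + 1)) ≤ 1 / 2 := by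
    rw [mul_one_div, div_le_div_iff₀ hz1 (by norm_num)]
    have : (2 : ℝ) * n ≤ Z := by exact_mod_cast hZ
    linarith
  rw [h2, div_pow] at h1
  have h4 : (1 : ℝ) / 2 ≤ (Z : ℝ) ^ n / ((Z : ℝ) + 1) ^ n := by
    refine le_trans ?_ h1
    linarith
  rw [div_le_div_iff₀ (by norm_num) (by positivity)] at h4
  linarith

/-- the root -/
theorem exists_root (k Z₁ N : ℕ) (hk : k ≠ 0) (hZ₁ : 2 * k ≤ Z₁) (hN : 1 ≤ N)
    (hNZ : Z₁ ^ k ≤ N) : ∃ Z : ℕ, Z₁ ≤ Z ∧ Z ^ k ≤ N ∧ N ≤ 2 * Z ^ k := by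
  have hex : ∃ Z : ℕ, N < (Z + 1) ^ k :=
    ⟨N, lt_of_lt_of_le (Nat.lt_succ_self N) (Nat.le_self_pow hk _)⟩
  classical
  obtain ⟨Z, hZ, hmin⟩ : ∃ Z, N < (Z + 1) ^ k ∧ ∀ m < Z, ¬ N < (m + 1) ^ k :=
    ⟨Nat.find hex, Nat.find_spec hex, fun m hm => Nat.find_min hex hm⟩
  have h1 : Z₁ ≤ Z := by
    by_contra h
    have h2 : (Z + 1) ^ k ≤ Z₁ ^ k := Nat.pow_le_pow_left (by omega) _
    omega
  refine ⟨Z, h1, ?_, ?_⟩
  · rcases Nat.eq_zero_or_pos Z with h | h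
    · rw [h, zero_pow hk]
      exact Nat.zero_le _
    · have h2 := hmin (Z - 1) (by omega)
      rw [Nat.sub_add_cancel h] at h2
      omega
  · have h2 := succ_pow_le k Z (hZ₁.trans h1)
    have h3 : (Z + 1) ^ k ≤ 2 * Z ^ k := by exact_mod_cast h2
    omega

/-- powers of `Z` and of `N` -/
theorem zpow_le (z n e : ℝ) (k : ℕ) (hz : 0 ≤ z) (hzn : z ^ 64000 ≤ n) (hn : 1 ≤ n)
    (hk : (k : ℝ) / 64000 ≤ e) : z ^ k ≤ n ^ e := by
  have h1 : z ^ k = (z ^ 64000) ^ ((k : ℝ) / 64000) := by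
    rw [← Real.rpow_natCast z 64000, ← Real.rpow_mul hz, ← Real.rpow_natCast]
    congr 1
    push_cast
    ring
  rw [h1]
  calc (z ^ 64000) ^ ((k : ℝ) / 64000) ≤ n ^ ((k : ℝ) / 64000) :=
        Real.rpow_le_rpow (pow_nonneg hz _) hzn (by positivity)
    _ ≤ n ^ e := Real.rpow_le_rpow_of_exponent_le hn hk

theorem aff : AffStmt := by
  intro acs ptb ε hε
  obtain ⟨Z₀, hB⟩ := ptb
  obtain ⟨C₁, hC₁, hA⟩ := acs ε hε
  obtain ⟨Z₁, hZ₀₁, hZ₁⟩ : ∃ Z₁ : ℕ, Z₀ ≤ Z₁ ∧ 2 * 64000 ≤ Z₁ :=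
    ⟨max Z₀ (2 * 64000), le_max_left _ _, le_max_right _ _⟩
  obtain ⟨K, hK⟩ : ∃ K : ℕ, K = Z₁ ^ 64000 := ⟨_, rfl⟩
  refine ⟨(K : ℝ) + 1 + 5 * C₁, by positivity, fun N t ξ hN hF => ?_⟩
  have hn1 : (1 : ℝ) ≤ N := by exact_mod_cast hN
  have hn0 : (0 : ℝ) < N := by linarith
  have he0 : (0 : ℝ) < 1 - (1 / 8 + 1 / 4000) + ε := by linarith
  have hp1 : (1 : ℝ) ≤ (N : ℝ) ^ (1 - (1 / 8 + 1 / 4000) + ε) := Real.one_le_rpow hn1 he0.le
  have hp0 : (0 : ℝ) < (N : ℝ) ^ (1 - (1 / 8 + 1 / 4000) + ε) := by linarith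
  rcases Nat.lt_or_ge N K with hNK | hNK
  · -- small `N`
    calc ‖W 4 N t ξ‖ ≤ (N : ℝ) := norm_W_le _ _ _ _
      _ ≤ (K : ℝ) := by exact_mod_cast hNK.le
      _ ≤ ((K : ℝ) + 1 + 5 * C₁) * 1 := by linarith
      _ ≤ _ := mul_le_mul_of_nonneg_left hp1 (by positivity)
  · rw [hK] at hNK
    obtain ⟨Z, hZZ, hZN, hNZ⟩ := exists_root 64000 Z₁ N (by norm_num) hZ₁ hN hNK
    have hZ0 : Z₀ ≤ Z := hZ₀₁.trans hZZ
    have hZ2 : 2 * 64000 ≤ Z := hZ₁.trans hZZ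
    have hz1 : (2 : ℝ) ≤ Z := by
      have : 2 ≤ Z := by omega
      exact_mod_cast this
    have hz0 : (0 : ℝ) < Z := by linarith
    have hzn : (Z : ℝ) ^ 64000 ≤ N := by exact_mod_cast hZN
    have hnz : (N : ℝ) ≤ 2 * (Z : ℝ) ^ 64000 := by exact_mod_cast hNZ
    have hP0 : 0 < Z ^ 144200 := Nat.pow_pos (by omega)
    obtain ⟨q, hq1, hq2⟩ := Real.exists_rat_abs_sub_le_and_den_le t hP0
    have hu1 : 1 ≤ q.den := q.den_pos
    have hu0 : (0 : ℝ) < q.den := by exact_mod_cast hu1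
    have hg : Int.gcd q.num (q.den : ℤ) = 1 := by
      have h := q.reduced
      rw [Int.gcd_eq_natAbs, Int.natAbs_natCast]
      exact h
    rw [Rat.cast_def] at hq1
    have hP1 : (0 : ℝ) < (Z : ℝ) ^ 144200 := by positivity
    have hq3 : |t - (q.num : ℝ) / (q.den : ℝ)| ≤ 1 / ((Z : ℝ) ^ 144200 * (q.den : ℝ)) := by
      refine hq1.trans ?_
      apply one_div_le_one_div_of_le (by positivity)
      apply mul_le_mul_of_nonneg_right _ hu0.le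
      push_cast
      linarith
    rcases Nat.lt_or_ge q.den (Z ^ 111900) with hu | hu
    · -- case A
      have h1 : ((16 : ℝ) * (Z : ℝ) ^ 111900) ≤ (N : ℝ) ^ 2 := by
        calc (16 : ℝ) * (Z : ℝ) ^ 111900 ≤ (Z : ℝ) ^ 4 * (Z : ℝ) ^ 111900 := by
              apply mul_le_mul_of_nonneg_right _ (by positivity)
              calc (16 : ℝ) = 2 ^ 4 := by norm_num
                _ ≤ (Z : ℝ) ^ 4 := pow_le_pow_left₀ (by norm_num) hz1 4
          _ = (Z : ℝ) ^ (4 + 111900) := by rw [pow_add]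
          _ ≤ (Z : ℝ) ^ 128000 := pow_le_pow_right₀ (by linarith) (by norm_num)
          _ = ((Z : ℝ) ^ 64000) ^ 2 := by rw [← pow_mul]
          _ ≤ (N : ℝ) ^ 2 := pow_le_pow_left₀ (by positivity) hzn 2
      have h2 : ((q.den : ℕ) : ℝ) ≤ 16 * (Z : ℝ) ^ 111900 := by
        have h3 : ((q.den : ℕ) : ℝ) ≤ (Z : ℝ) ^ 111900 := by exact_mod_cast hu.le
        have h4 : (0 : ℝ) ≤ (Z : ℝ) ^ 111900 := by positivity
        linarith
      have h3 : (q.den : ℝ) * ((N : ℝ) ^ 4 * |t - (q.num : ℝ) / (q.den : ℝ)|) ≤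
          16 * (Z : ℝ) ^ 111900 := by
        calc (q.den : ℝ) * ((N : ℝ) ^ 4 * |t - (q.num : ℝ) / (q.den : ℝ)|)
            ≤ (q.den : ℝ) * ((N : ℝ) ^ 4 * (1 / ((Z : ℝ) ^ 144200 * (q.den : ℝ)))) := by
              apply mul_le_mul_of_nonneg_left _ hu0.le
              exact mul_le_mul_of_nonneg_left hq3 (by positivity)
          _ = (N : ℝ) ^ 4 / (Z : ℝ) ^ 144200 := by
              field_simp
          _ ≤ (2 * (Z : ℝ) ^ 64000) ^ 4 / (Z : ℝ) ^ 144200 := by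
              apply div_le_div_of_nonneg_right _ hP1.le
              exact pow_le_pow_left₀ hn0.le hnz 4
          _ = 16 * (Z : ℝ) ^ 111800 := by
              rw [mul_pow, ← pow_mul, div_eq_iff hP1.ne', mul_assoc, ← pow_add]
              norm_num
          _ ≤ 16 * (Z : ℝ) ^ 111900 := by
              apply mul_le_mul_of_nonneg_left _ (by norm_num)
              exact pow_le_pow_right₀ (by linarith) (by norm_num)
      have h4 := hA N q.den q.num t ξ (16 * (Z : ℝ) ^ 111900) hN hu1 hg hF h2 h3 h1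
      have h5 : √(16 * (Z : ℝ) ^ 111900) ≤ 4 * (Z : ℝ) ^ 55950 := by
        rw [Real.sqrt_le_iff]
        refine ⟨by positivity, le_of_eq ?_⟩
        rw [mul_pow, ← pow_mul]
        norm_num
      have h6 : (Z : ℝ) ^ 55950 ≤ (N : ℝ) ^ ((1 : ℝ) - (1 / 8 + 1 / 4000)) := by
        apply zpow_le _ _ _ _ hz0.le hzn hn1
        push_cast
        norm_num
      have h7 : (N : ℝ) ^ (3 / 4 : ℝ) ≤ (N : ℝ) ^ ((1 : ℝ) - (1 / 8 + 1 / 4000)) :=
        Real.rpow_le_rpow_of_exponent_le hn1 (by norm_num)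
      have h8 : (N : ℝ) ^ ((1 : ℝ) - (1 / 8 + 1 / 4000) + ε) =
          (N : ℝ) ^ ε * (N : ℝ) ^ ((1 : ℝ) - (1 / 8 + 1 / 4000)) := by
        rw [← Real.rpow_add hn0]
        congr 1
        ring
      have h9 : (0 : ℝ) ≤ C₁ * (N : ℝ) ^ ε := by positivity
      calc ‖W 4 N t ξ‖ ≤ C₁ * (N : ℝ) ^ ε * ((N : ℝ) ^ (3 / 4 : ℝ) +
            √(16 * (Z : ℝ) ^ 111900)) := h4
        _ ≤ C₁ * (N : ℝ) ^ ε * (5 * (N : ℝ) ^ ((1 : ℝ) - (1 / 8 + 1 / 4000))) := by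
            apply mul_le_mul_of_nonneg_left _ h9
            linarith
        _ = 5 * C₁ * (N : ℝ) ^ ((1 : ℝ) - (1 / 8 + 1 / 4000) + ε) := by
            rw [h8]
            ring
        _ ≤ _ := by
            apply mul_le_mul_of_nonneg_right _ hp0.le
            linarith [Nat.cast_nonneg (α := ℝ) K]
    · -- case B
      have h1 : |t - (q.num : ℝ) / (q.den : ℝ)| ≤ 1 / (q.den : ℝ) ^ 2 := by
        refine hq3.trans ?_
        apply one_div_le_one_div_of_le (by positivity)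
        rw [sq]
        apply mul_le_mul_of_nonneg_right _ hu0.le
        exact_mod_cast hq2
      have h2 := hB Z hZ0 N q.den q.num t ξ hZN hNZ hu hq2 hg h1
      have h3 : ‖W 4 N t ξ‖ ^ 4 ≤ (Z : ℝ) ^ 223934 := by
        have h4 : (0 : ℝ) < (Z : ℝ) ^ 66 := by positivity
        refine le_of_mul_le_mul_right ?_ h4
        refine h2.trans (le_of_eq ?_)
        rw [← pow_add]
      have h4 : (Z : ℝ) ^ 223934 ≤ (N : ℝ) ^ ((1 - (1 / 8 + 1 / 4000) + ε) * 4) := by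
        apply zpow_le _ _ _ _ hz0.le hzn hn1
        push_cast
        linarith
      have h5 : ‖W 4 N t ξ‖ ^ 4 ≤ ((N : ℝ) ^ (1 - (1 / 8 + 1 / 4000) + ε)) ^ 4 := by
        refine h3.trans (h4.trans (le_of_eq ?_))
        rw [Real.rpow_mul hn0.le]
        exact_mod_cast rfl
      have h6 := le_of_pow_le_pow_left₀ (by norm_num : (4 : ℕ) ≠ 0) hp0.le h5
      calc ‖W 4 N t ξ‖ ≤ 1 * (N : ℝ) ^ (1 - (1 / 8 + 1 / 4000) + ε) := by rw [one_mul]; exact h6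
        _ ≤ _ := by
            apply mul_le_mul_of_nonneg_right _ hp0.le
            have : (0 : ℝ) ≤ K := Nat.cast_nonneg _
            linarith

end Pool.Agent.K4W.H41
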