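import Mathlib
import Pool.Agent.K4W.StmtsF

/-!
# Squad K4W, row CSP: the number of `H` with a multiple near an integer
-/

set_option autoImplicit false

open scoped Classical

namespace Pool.Agent.K4W.H41

open Pool.Agent.VM (Nr)

theorem csp (c48 : C48Stmt) (dvz : DvzStmt) : CspStmt := by
  obtain ⟨Z₀, hZ⟩ := dvz
  refine ⟨Z₀, fun Z hZZ t η a Q R X hQ hg ht hη hRX => ?_⟩
  have h1 := c48 t η a Q (R * X) hQ hg ht hη
  set T := (Finset.Icc (-((R * X : ℕ) : ℤ)) ((R * X : ℕ) : ℤ)).filter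
    (fun m : ℤ => Nr (48 * t * (m : ℝ)) η) with hT
  set s := (Hs X).filter (fun H : ℤ => ∃ r : ℕ, 1 ≤ r ∧ r ≤ R ∧
    Nr (48 * t * (H : ℝ) * (r : ℝ)) η) with hs
  have hex : ∀ H : ℤ, ∃ r : ℕ, H ∈ s → (1 ≤ r ∧ r ≤ R ∧ Nr (48 * t * (H : ℝ) * (r : ℝ)) η) := by
    intro H
    by_cases h : H ∈ s
    · obtain ⟨r, hr⟩ := (Finset.mem_filter.1 h).2
      exact ⟨r, fun _ => hr⟩
    · exact ⟨0, fun h' => absurd h' h⟩
  choose ρ hρ using hex
  have hHs : ∀ H ∈ s, -(X : ℤ) ≤ H ∧ H ≤ X ∧ H ≠ 0 := by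
    intro H hH
    have h2 := (Finset.mem_filter.1 hH).1
    unfold Hs at h2
    obtain ⟨h3, h4⟩ := Finset.mem_filter.1 h2
    obtain ⟨h5, h6⟩ := Finset.mem_Icc.1 h3
    exact ⟨h5, h6, h4⟩
  have h2 : s.card ≤ Z * T.card := by
    apply Finset.card_le_mul_card_image_of_maps_to (f := fun H => (ρ H : ℤ) * H)
    · intro H hH
      obtain ⟨h3, h4, h5⟩ := hρ H hH
      obtain ⟨h6, h7, h8⟩ := hHs H hH
      rw [hT, Finset.mem_filter, Finset.mem_Icc]
      have h9 : |H| ≤ X := abs_le.2 ⟨h6, h7⟩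
      have h10 : |(ρ H : ℤ) * H| ≤ ((R * X : ℕ) : ℤ) := by
        rw [abs_mul, Nat.abs_cast]
        push_cast
        exact mul_le_mul (by exact_mod_cast h4) h9 (abs_nonneg _) (by positivity)
      obtain ⟨h11, h12⟩ := abs_le.1 h10
      refine ⟨⟨h11, h12⟩, ?_⟩
      have h13 : 48 * t * (((ρ H : ℤ) * H : ℤ) : ℝ) = 48 * t * (H : ℝ) * (ρ H : ℝ) := by
        push_cast
        ring
      rw [h13]
      exact h5
    · intro b hb
      rcases eq_or_ne b 0 with rfl | hb0
      · rw [Finset.card_eq_zero.2]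
        · exact Nat.zero_le _
        · rw [Finset.filter_eq_empty_iff]
          intro H hH h
          obtain ⟨h3, h4, h5⟩ := hρ H hH
          obtain ⟨h6, h7, h8⟩ := hHs H hH
          rcases mul_eq_zero.1 h with h9 | h9
          · have : ρ H = 0 := by exact_mod_cast h9
            omega
          · exact h8 h9
      · have hb1 : 1 ≤ b.natAbs := Int.natAbs_pos.2 hb0
        have hb2 : b.natAbs ≤ Z ^ 300000 := by
          refine le_trans ?_ hRX
          obtain ⟨h3, h4⟩ := Finset.mem_Icc.1 (Finset.mem_filter.1 hb).1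
          omega
        refine le_trans ?_ (hZ Z hZZ _ hb1 hb2)
        apply Finset.card_le_card_of_injOn ρ
        · intro H hH
          rw [Finset.mem_coe, Finset.mem_filter] at hH
          rw [Finset.mem_coe, Nat.mem_divisors]
          refine ⟨?_, by omega⟩
          rw [← hH.2, Int.natAbs_mul, Int.natAbs_natCast]
          exact Dvd.intro _ rfl
        · intro H hH H' hH' h
          rw [Finset.mem_coe, Finset.mem_filter] at hH hH'
          have h3 : (ρ H : ℤ) * H = ρ H * H' := by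
            rw [hH.2, h, hH'.2]
          obtain ⟨h4, -, -⟩ := hρ H hH.1
          exact mul_left_cancel₀ (by exact_mod_cast (by omega : ρ H ≠ 0)) h3
  calc (s.card : ℝ) ≤ ((Z * T.card : ℕ) : ℝ) := by exact_mod_cast h2
    _ = (Z : ℝ) * (T.card : ℝ) := by push_cast; ring
    _ ≤ _ := by
      refine mul_le_mul_of_nonneg_left ?_ (Nat.cast_nonneg _)
      refine h1.trans (le_of_eq ?_)
      push_cast
      ring

end Pool.Agent.K4W.H41
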