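import Mathlib
import Pool.Agent.K4W.StmtsP

/-!
# Squad K4W, row FOU: the coefficients are Fourier integrals
-/

set_option autoImplicit false

namespace Pool.Agent.K4W.H41

open Pool.Agent.Helper69_Weyl (ee W)

theorem Ag_re_pos (N : ℕ) (γ : ℝ) (hN : 0 < N) : 0 < (Ag N γ).re := by
  unfold Ag
  have h : (2 * Complex.I * (γ : ℂ)).re = 0 := by
    simp
  rw [Complex.sub_re, h, Complex.ofReal_re, sub_zero]
  have : (0 : ℝ) < N := by exact_mod_cast hN
  positivity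

theorem fou : FouStmt := by
  intro N r γ m hN hr
  have hN0 : (N : ℂ) ≠ 0 := by exact_mod_cast hN.ne'
  have hr0 : (r : ℂ) ≠ 0 := by exact_mod_cast hr.ne'
  have hA := Ag_re_pos N γ hN
  have hA0 : Ag N γ ≠ 0 := by
    intro h
    rw [h] at hA
    simp at hA
  have h1 := congrFun (fourier_gaussian_pi hA) ((m : ℝ) / (r : ℝ))
  rw [Real.fourier_real_eq_integral_exp_smul] at h1
  have h2 : (∫ s : ℝ, (ga N (2 * s) : ℂ) * (ee (γ * s ^ 2) * ee (-(s * (m : ℝ) / (r : ℝ))))) =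
      ∫ v : ℝ, Complex.exp (((-2 * Real.pi * v * ((m : ℝ) / (r : ℝ)) : ℝ) : ℂ) * Complex.I) •
        Complex.exp (-(Real.pi : ℂ) * Ag N γ * (v : ℂ) ^ 2) := by
    congr 1
    funext s
    unfold ga ee Ag
    rw [Complex.ofReal_exp, smul_eq_mul, ← Complex.exp_add, ← Complex.exp_add, ← Complex.exp_add]
    congr 1
    push_cast
    field_simp
    ring_nf
  rw [h2, h1]
  unfold cf
  have h3 : (-((Real.pi : ℂ) * (m : ℂ) ^ 2 / ((r : ℂ) ^ 2 * Ag N γ))) =
      -(Real.pi : ℂ) / Ag N γ * (((m : ℝ) / (r : ℝ) : ℝ) : ℂ) ^ 2 := by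
    push_cast
    field_simp
  have h4 : (Ag N γ) ^ (-(1 / 2) : ℂ) = 1 / (Ag N γ) ^ (1 / 2 : ℂ) := by
    rw [Complex.cpow_neg, one_div, one_div]
  rw [h3, h4, mul_assoc]

end Pool.Agent.K4W.H41
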