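import Mathlib
import Pool.Agent.K4W.StmtsU

/-!
# Squad K4W, row UQI: the quadruple product at the centre
-/

set_option autoImplicit false

namespace Pool.Agent.K4W.H41

open Pool.Agent.Helper69_Weyl (ee W)

/-- an algebraic identity for the product of four factors -/
theorem four_mul (G₁ G₂ G₃ G₄ E₁ E₂ E₃ E₄ K X S P Q : ℂ) (h1 : G₁ * G₂ * G₃ * G₄ = K * X * S)
    (h2 : E₁ * E₂ * E₃ * E₄ = P * Q) :
    (G₁ * E₁) * (G₂ * E₂) * ((G₃ * E₃) * (G₄ * E₄)) = K * ((P * X) * (S * Q)) := by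
  linear_combination (E₁ * E₂ * E₃ * E₄) * h1 + (K * X * S) * h2

theorem uqi : UqiStmt := by
  intro N μ t h k s
  unfold F4 f ps
  rw [map_mul, map_mul, Complex.conj_ofReal, Complex.conj_ofReal,
    Pool.Agent.Helper69_Weyl.conj_ee, Pool.Agent.Helper69_Weyl.conj_ee]
  apply four_mul
  · rw [← Complex.ofReal_mul, ← Complex.ofReal_mul, ← Complex.ofReal_mul, ← Complex.ofReal_mul,
      ← Complex.ofReal_mul]
    congr 1
    unfold ga
    rw [← Real.exp_add, ← Real.exp_add, ← Real.exp_add, ← Real.exp_add, ← Real.exp_add]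
    congr 1
    push_cast
    ring
  · rw [← Pool.Agent.Helper69_Weyl.ee_add, ← Pool.Agent.Helper69_Weyl.ee_add,
      ← Pool.Agent.Helper69_Weyl.ee_add, ← Pool.Agent.Helper69_Weyl.ee_add]
    congr 1
    push_cast
    ring

end Pool.Agent.K4W.H41
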